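import Pool.Agent.KS6_72.SumDiff

/-!
# Sum index and difference index of bipartite graphs: all pairs

A bipartite graph with `sm ≥ 2` has `sm / 2 ≤ df ≤ sm - 1`, and all pairs allowed by these
inequalities occur.  `sm` and `df` are defined in `Pool/Agent/KS6_72/SumDiff.lean`.
-/

set_option autoImplicit false

namespace Pool.Agent.Results.MP_ecebd1_co.AllPairs

open Pool.Agent.KS6_72.SumDiff

/-- **All pairs `(sm(G), df(G))` of bipartite graphs.**
(1) For natural numbers `s, d` there is a finite bipartite graph `G` with at least one edge,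
`sm(G) = s` and `df(G) = d` if and only if `s = d = 1` or `s / 2 ≤ d ≤ s - 1`.
(2) For every `s ≥ 2` the maximum of `df(G) - ⌈sm(G) / 2⌉` over the bipartite graphs with
`sm(G) = s` is `⌊s / 2⌋ - 1`. -/
theorem result :
    (∀ s d : ℕ, (∃ (V : Type) (_ : Fintype V) (G : SimpleGraph V),
        G.IsBipartite ∧ (∃ u v, G.Adj u v) ∧ sm G = s ∧ df G = d) ↔
      (s = 1 ∧ d = 1) ∨ (s ≤ 2 * d ∧ d + 1 ≤ s)) ∧
    (∀ s : ℕ, 2 ≤ s → IsGreatest {k : ℤ | ∃ (V : Type) (_ : Fintype V) (G : SimpleGraph V),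
        G.IsBipartite ∧ (∃ u v, G.Adj u v) ∧ sm G = s ∧ k = (df G : ℤ) - ⌈(sm G : ℚ) / 2⌉}
      (((s / 2 : ℕ) : ℤ) - 1)) := by
  have h1 : ∀ s d : ℕ, (∃ (V : Type) (_ : Fintype V) (G : SimpleGraph V),
        G.IsBipartite ∧ (∃ u v, G.Adj u v) ∧ sm G = s ∧ df G = d) ↔
      (s = 1 ∧ d = 1) ∨ (s ≤ 2 * d ∧ d + 1 ≤ s) := by
    intro s d
    rw [← pairs s d]
    simp only [bip_iff]
  refine ⟨h1, fun s hs => ⟨?_, ?_⟩⟩
  · obtain ⟨V, inst, G, hG, hE, h2, h3⟩ := (h1 s (s - 1)).2 (Or.inr ⟨by omega, by omega⟩)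
    refine ⟨V, inst, G, hG, hE, h2, ?_⟩
    rw [ceil_half, h2, h3]
    omega
  · rintro k ⟨V, inst, G, hG, hE, h2, rfl⟩
    have h3 := (h1 s (df G)).1 ⟨V, inst, G, hG, hE, h2, rfl⟩
    rw [ceil_half, h2]
    omega

end Pool.Agent.Results.MP_ecebd1_co.AllPairs
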